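import Pool.Agent.H6.FC.Lem

set_option autoImplicit false

open scoped Classical ComplexConjugate

namespace Pool.Agent.H86.FC

open FI AMc AMt

section

variable {Γ S J : Type} [Group Γ] [Group S]

/-- the preimage of the product of the factors in `I` -/
def NI (N : Subgroup Γ) (π : N →* (J → S)) (I : Finset J) : Subgroup Γ where
  carrier := {g | ∃ h : g ∈ N, ∀ j, j ∉ I → π ⟨g, h⟩ j = 1}
  mul_mem' := by
    rintro a b ⟨ha, ha'⟩ ⟨hb, hb'⟩
    refine ⟨N.mul_mem ha hb, fun j hj => ?_⟩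
    have h : (⟨a * b, N.mul_mem ha hb⟩ : N) = ⟨a, ha⟩ * ⟨b, hb⟩ := rfl
    rw [h, map_mul, Pi.mul_apply, ha' j hj, hb' j hj, mul_one]
  one_mem' := by
    refine ⟨N.one_mem, fun j _ => ?_⟩
    have h : (⟨1, N.one_mem⟩ : N) = 1 := rfl
    rw [h, map_one, Pi.one_apply]
  inv_mem' := by
    rintro a ⟨ha, ha'⟩
    refine ⟨N.inv_mem ha, fun j hj => ?_⟩
    have h : (⟨a⁻¹, N.inv_mem ha⟩ : N) = ⟨a, ha⟩⁻¹ := rfl
    rw [h, map_inv, Pi.inv_apply, ha' j hj, inv_one]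

lemma mem_NI (N : Subgroup Γ) (π : N →* (J → S)) (I : Finset J) (g : Γ) :
    g ∈ NI N π I ↔ g ∈ N ∧ ∀ j, j ∉ I → pj N π j g = 1 := by
  constructor
  · rintro ⟨h, h'⟩
    refine ⟨h, fun j hj => ?_⟩
    rw [pj, dif_pos h]
    exact h' j hj
  · rintro ⟨h, h'⟩
    refine ⟨h, fun j hj => ?_⟩
    have h2 := h' j hj
    rwa [pj, dif_pos h] at h2

lemma mem_MM (N : Subgroup Γ) (π : N →* (J → S)) (i : J) (g : Γ) :
    g ∈ MM N π i ↔ g ∈ N ∧ ∀ j, j ≠ i → pj N π j g = 1 := by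
  constructor
  · rintro ⟨h, h'⟩
    refine ⟨h, fun j hj => ?_⟩
    rw [pj, dif_pos h]
    exact h' j hj
  · rintro ⟨h, h'⟩
    refine ⟨h, fun j hj => ?_⟩
    have h2 := h' j hj
    rwa [pj, dif_pos h] at h2

end

section

variable {Γ S J : Type} [Group Γ] [Group S] [Fintype J] {Z N : Subgroup Γ}
  {π : N →* (J → S)} {σ : Γ →* Equiv.Perm J} {a : Γ → J → MulAut S}

lemma mem_Z_iff (hd : CPd Z N π σ a) (g : Γ) : g ∈ Z ↔ g ∈ N ∧ ∀ j, pj N π j g = 1 := by
  constructor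
  · intro h
    refine ⟨hd.le h, fun j => ?_⟩
    rw [pj, dif_pos (hd.le h), (hd.ker ⟨g, hd.le h⟩).2 h]
    rfl
  · rintro ⟨h, h'⟩
    apply (hd.ker ⟨g, h⟩).1
    funext j
    have h2 := h' j
    rw [pj, dif_pos h] at h2
    exact h2

lemma pj_inv (hd : CPd Z N π σ a) (hm : MMf Z N π σ a) (x : Γ) (hx : x ∈ N) (j : J) :
    pj N π j x⁻¹ = (pj N π j x)⁻¹ := by
  have h1 := hm.mul x hx x⁻¹ (N.inv_mem hx) j
  rw [mul_inv_cancel, ((mem_Z_iff hd 1).1 Z.one_mem).2 j] at h1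
  exact (eq_inv_of_mul_eq_one_right h1.symm)

lemma NI_empty (hd : CPd Z N π σ a) : NI N π ∅ = Z := by
  ext g
  rw [mem_NI, mem_Z_iff hd]
  simp

lemma NI_univ : NI N π Finset.univ = N := by
  ext g
  rw [mem_NI]
  simp

lemma NI_inf (hd : CPd Z N π σ a) (I : Finset J) (i : J) (hi : i ∉ I) :
    NI N π I ⊓ MM N π i = Z := by
  ext g
  rw [Subgroup.mem_inf, mem_NI, mem_MM, mem_Z_iff hd]
  constructor
  · rintro ⟨⟨h1, h2⟩, -, h3⟩
    refine ⟨h1, fun j => ?_⟩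
    by_cases hj : j = i
    · rw [hj]
      exact h2 i hi
    · exact h3 j hj
  · rintro ⟨h1, h2⟩
    exact ⟨⟨h1, fun j _ => h2 j⟩, h1, fun j _ => h2 j⟩

lemma NI_insert (hd : CPd Z N π σ a) (hm : MMf Z N π σ a) (I : Finset J) (i : J) :
    NI N π (insert i I) = NI N π I ⊔ MM N π i := by
  apply le_antisymm
  · intro n hn
    rw [mem_NI] at hn
    obtain ⟨x, hx, hxs⟩ := hm.sur i (pj N π i n)
    have hxN := hm.mn i hx
    have h1 : n * x⁻¹ ∈ NI N π I := by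
      rw [mem_NI]
      refine ⟨N.mul_mem hn.1 (N.inv_mem hxN), fun j hj => ?_⟩
      rw [hm.mul n hn.1 _ (N.inv_mem hxN) j, pj_inv hd hm x hxN]
      by_cases hji : j = i
      · rw [hji, hxs, mul_inv_cancel]
      · rw [hn.2 j (by
          rw [Finset.mem_insert]
          tauto), ((mem_MM N π i x).1 hx).2 j hji]
        simp
    have h2 : n = n * x⁻¹ * x := by group
    rw [h2]
    exact Subgroup.mul_mem_sup h1 hx
  · refine sup_le ?_ ?_
    · intro n hn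
      rw [mem_NI] at hn ⊢
      exact ⟨hn.1, fun j hj => hn.2 j fun h => hj (Finset.mem_insert_of_mem h)⟩
    · intro n hn
      rw [mem_MM] at hn
      rw [mem_NI]
      exact ⟨hn.1, fun j hj => hn.2 j fun h => hj (by rw [h]; exact Finset.mem_insert_self i I)⟩

variable (hc : Pairwise fun i j => ∀ x y : Γ, x ∈ MM N π i → y ∈ MM N π j → Commute x y)

lemma NI_dec (hd : CPd Z N π σ a) (hm : MMf Z N π σ a) (I : Finset J) (n : Γ)
    (hn : n ∈ NI N π I) : ∃ z ∈ Z, ∃ m : (∀ i, MM N π i), (∀ j, j ∉ I → m j = 1) ∧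
      n = z * Subgroup.noncommPiCoprod hc m := by
  rw [mem_NI] at hn
  have h1 : ∀ i, ∃ x : MM N π i, pj N π i x = pj N π i n ∧ (i ∉ I → x = 1) := by
    intro i
    by_cases hi : i ∈ I
    · obtain ⟨x, hx, hxs⟩ := hm.sur i (pj N π i n)
      exact ⟨⟨x, hx⟩, hxs, fun h => absurd hi h⟩
    · refine ⟨1, ?_, fun _ => rfl⟩
      rw [hn.2 i hi]
      exact ((mem_Z_iff hd 1).1 Z.one_mem).2 i
  choose m hm1 hm2 using h1
  have h2 := hm.prj hc 1 Z.one_mem m
  rw [one_mul] at h2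
  refine ⟨n * (Subgroup.noncommPiCoprod hc m)⁻¹, ?_, m, hm2, by group⟩
  rw [mem_Z_iff hd]
  refine ⟨N.mul_mem hn.1 (N.inv_mem h2.1), fun j => ?_⟩
  rw [hm.mul n hn.1 _ (N.inv_mem h2.1) j, pj_inv hd hm _ h2.1, h2.2 j, hm1 j, mul_inv_cancel]

lemma NI_mem (hd : CPd Z N π σ a) (hm : MMf Z N π σ a) (I : Finset J) (z : Γ) (hz : z ∈ Z)
    (m : ∀ i, MM N π i) (hmI : ∀ j, j ∉ I → m j = 1) :
    z * Subgroup.noncommPiCoprod hc m ∈ NI N π I := by
  have h2 := hm.prj hc z hz m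
  rw [mem_NI]
  refine ⟨h2.1, fun j hj => ?_⟩
  rw [h2.2 j, hmI j hj]
  exact ((mem_Z_iff hd 1).1 Z.one_mem).2 j

include hc in
lemma NI_comm (hd : CPd Z N π σ a) (hm : MMf Z N π σ a) (I : Finset J) (i : J) (hi : i ∉ I) :
    ∀ n ∈ NI N π I, ∀ x ∈ MM N π i, n * x = x * n := by
  intro n hn x hx
  obtain ⟨z, hz, m, hm1, rfl⟩ := NI_dec hc hd hm I n hn
  have h1 : Subgroup.noncommPiCoprod hc m ∈ Subgroup.centralizer ({x} : Set Γ) := by
    rw [Subgroup.noncommPiCoprod_apply]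
    apply Subgroup.noncommProd_mem
    intro j _
    rw [Subgroup.mem_centralizer_singleton_iff]
    by_cases hj : j = i
    · subst hj
      rw [hm1 j hi]
      simp
    · exact hc hj (m j) x (m j).2 hx
  rw [Subgroup.mem_centralizer_singleton_iff] at h1
  rw [mul_assoc, h1, ← mul_assoc, hd.cen z hz x, mul_assoc]

variable [Fintype Γ] [Finite S]

/-- `χ` is the product of the `c i`, `i ∈ I` -/
def PrI (Z N : Subgroup Γ) (π : N →* (J → S))
    (hc : Pairwise fun i j => ∀ x y : Γ, x ∈ MM N π i → y ∈ MM N π j → Commute x y)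
    (ν : Γ → ℂ) (I : Finset J) (c : J → Γ → ℂ) (χ : Γ → ℂ) : Prop :=
  ∀ z ∈ Z, ∀ m : (∀ i, MM N π i), (∀ j, j ∉ I → m j = 1) →
    χ (z * Subgroup.noncommPiCoprod hc m) = ν z * ∏ i ∈ I, c i (m i)

lemma split_m (i : J) (m : ∀ i, MM N π i) :
    Subgroup.noncommPiCoprod hc m =
      Subgroup.noncommPiCoprod hc (Function.update m i 1) * (m i : Γ) := by
  have h1 : m = Function.update m i 1 * Pi.mulSingle i (m i) := by
    funext j
    rw [Pi.mul_apply]
    by_cases hj : j = i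
    · subst hj
      rw [Function.update_self, Pi.mulSingle_eq_same, one_mul]
    · rw [Function.update_of_ne hj, Pi.mulSingle_eq_of_ne hj, mul_one]
  conv_lhs => rw [h1]
  rw [map_mul, Subgroup.noncommPiCoprod_mulSingle]

lemma step_val (hd : CPd Z N π σ a) (hm : MMf Z N π σ a) (ν : Γ → ℂ) (I : Finset J) (i : J)
    (hi : i ∉ I) (c : J → Γ → ℂ) (χ' φ χ : Γ → ℂ)
    (hχ' : PrI Z N π hc ν I c χ') (hχ : ∀ n ∈ NI N π I, ∀ x ∈ MM N π i, χ (n * x) = χ' n * φ x) :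
    PrI Z N π hc ν (insert i I) (Function.update c i φ) χ := by
  intro z hz m hmI
  have h1 : ∀ j, j ∉ I → Function.update m i 1 j = 1 := by
    intro j hj
    by_cases hji : j = i
    · subst hji
      rw [Function.update_self]
    · rw [Function.update_of_ne hji]
      apply hmI
      rw [Finset.mem_insert]
      tauto
  rw [split_m hc i m, ← mul_assoc, hχ _ (NI_mem hc hd hm I z hz _ h1) _ (m i).2,
    hχ' z hz _ h1, Finset.prod_insert hi, Function.update_self]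
  have h2 : ∏ j ∈ I, c j (Function.update m i 1 j) =
      ∏ j ∈ I, Function.update c i φ j (m j) := by
    refine Finset.prod_congr rfl fun j hj => ?_
    have hji : j ≠ i := by
      rintro rfl
      exact hi hj
    rw [Function.update_of_ne hji, Function.update_of_ne hji]
  rw [h2]
  ring

lemma over_self (ν : Γ → ℂ) (hν : ν ∈ IrrS Z) : ν ∈ Ab Z ν := by
  refine ⟨hν, ?_⟩
  unfold Over
  have h := FI.Lib.lS2 Γ Z ν ν hν hν
  rw [if_pos rfl] at h
  rw [h]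
  exact_mod_cast Nat.card_pos.ne'

lemma ab_self (ν χ : Γ → ℂ) (hν : ν ∈ IrrS Z) (hχ : χ ∈ Ab Z ν) : χ = ν := by
  by_contra hne
  have h := FI.Lib.lS2 Γ Z χ ν hχ.1 hν
  rw [if_neg hne] at h
  exact hχ.2 h

lemma claim_ab (CP2 : T_CP2) (hd : CPd Z N π σ a) (hm : MMf Z N π σ a) (ν : Γ → ℂ)
    (hν : ν ∈ IrrS Z) (I : Finset J) :
    (∀ c ∈ Fam N π ν, ∃ χ ∈ Ab (NI N π I) ν, PrI Z N π hc ν I c χ) ∧
    ∀ χ ∈ Ab (NI N π I) ν, ∃ c ∈ Fam N π ν, PrI Z N π hc ν I c χ := by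
  have hne : ∀ i, ∃ φ, φ ∈ Ab (MM N π i) ν := by
    intro i
    obtain ⟨χ, h1, h2⟩ := FI.Lib.lE4 Γ Z (MM N π i) (hm.zm i) ν hν
    exact ⟨χ, h1, h2⟩
  choose φ0 hφ0 using hne
  have hbase : ∀ c : J → Γ → ℂ, PrI Z N π hc ν ∅ c ν := by
    intro c z _ m hmI
    have h1 : m = 1 := by
      funext j
      exact hmI j (Finset.notMem_empty j)
    rw [h1, map_one, mul_one, Finset.prod_empty, mul_one]
  induction I using Finset.induction_on with
  | empty =>
    rw [NI_empty hd]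
    refine ⟨fun c _ => ⟨ν, over_self ν hν, hbase c⟩, fun χ hχ => ⟨φ0, fun i => hφ0 i, ?_⟩⟩
    rw [ab_self ν χ hν hχ]
    exact hbase φ0
  | insert i I hi ih =>
    obtain ⟨ih1, ih2⟩ := ih
    have hcp := CP2 Γ Z (NI N π I) (MM N π i) (NI_inf hd I i hi) (NI_comm hc hd hm I i hi) ν hν
    rw [NI_insert hd hm]
    constructor
    · intro c hcF
      obtain ⟨χ', hχ'1, hχ'2⟩ := ih1 c hcF
      obtain ⟨χ, hχ1, hχ2⟩ := hcp.1 χ' hχ'1 (c i) (hcF i)
      refine ⟨χ, hχ1, ?_⟩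
      have h := step_val hc hd hm ν I i hi c χ' (c i) χ hχ'2 hχ2
      rwa [Function.update_eq_self] at h
    · intro χ hχ
      obtain ⟨χ', hχ'1, φ, hφ, h3⟩ := hcp.2.1 χ hχ
      obtain ⟨c, hcF, hcv⟩ := ih2 χ' hχ'1
      refine ⟨Function.update c i φ, ?_, step_val hc hd hm ν I i hi c χ' φ χ hcv h3⟩
      intro j
      by_cases hj : j = i
      · subst hj
        rw [Function.update_self]
        exact hφ
      · rw [Function.update_of_ne hj]
        exact hcF j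

end

theorem pf_CPM (CP2 : T_CP2) : T_CPM := by
  intro Γ S J _ _ _ _ _ hS Z N π σ a hd hm ν hν hc
  have hcl := claim_ab hc CP2 hd hm ν hν Finset.univ
  rw [NI_univ] at hcl
  obtain ⟨hcl1, hcl2⟩ := hcl
  have hF : ∀ c : J → Γ → ℂ, ∃ χ : Γ → ℂ, c ∈ Fam N π ν →
      χ ∈ Ab N ν ∧ PrI Z N π hc ν Finset.univ c χ := by
    intro c
    by_cases h : c ∈ Fam N π ν
    · obtain ⟨χ, h1, h2⟩ := hcl1 c h
      exact ⟨χ, fun _ => ⟨h1, h2⟩⟩
    · exact ⟨0, fun h' => absurd h' h⟩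
  choose F hF using hF
  have hval : ∀ c ∈ Fam N π ν, ∀ z ∈ Z, ∀ m : (∀ i, MM N π i),
      F c (z * Subgroup.noncommPiCoprod hc m) = ν z * ∏ i, c i (m i) := by
    intro c hcF z hz m
    exact (hF c hcF).2 z hz m (fun j hj => absurd (Finset.mem_univ j) hj)
  refine ⟨F, ⟨⟨fun c hcF => (hF c hcF).1, ?_, ?_⟩, hval⟩⟩
  · -- injectivity
    intro c hcF c' hcF' he
    obtain ⟨dν, hdν, hdν'⟩ := (FI.Lib.lS1 Γ Z ν hν).2.2.1
    have hν1 : ν 1 ≠ 0 := by
      rw [hdν']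
      exact_mod_cast hdν.ne'
    have hprod : ∀ m : (∀ i, MM N π i), ∏ i, c i (m i) = ∏ i, c' i (m i) := by
      intro m
      have h1 := hval c hcF 1 Z.one_mem m
      have h2 := hval c' hcF' 1 Z.one_mem m
      rw [he, h2] at h1
      exact (mul_left_cancel₀ hν1 h1).symm
    -- degrees
    have hdeg : ∀ (e : J → Γ → ℂ), e ∈ Fam N π ν → ∀ i, ∃ d : ℕ, 0 < d ∧
        ∏ j ∈ Finset.univ.erase i, e j 1 = d := by
      intro e he i
      have h1 : ∀ j, ∃ d : ℕ, 0 < d ∧ e j 1 = d := fun j =>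
        (FI.Lib.lS1 Γ (MM N π j) (e j) (he j).1).2.2.1
      choose d hd1 hd2 using h1
      refine ⟨∏ j ∈ Finset.univ.erase i, d j, Finset.prod_pos fun j _ => hd1 j, ?_⟩
      rw [Finset.prod_congr rfl fun j _ => hd2 j]
      push_cast
      rfl
    funext i
    obtain ⟨α, hα, hα'⟩ := hdeg c hcF i
    obtain ⟨β, hβ, hβ'⟩ := hdeg c' hcF' i
    have hx : ∀ x ∈ MM N π i, c i x * α = c' i x * β := by
      intro x hx
      have h1 := hprod (Pi.mulSingle i ⟨x, hx⟩)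
      have h2 : ∀ e : J → Γ → ℂ, ∏ j, e j ((Pi.mulSingle i ⟨x, hx⟩ : ∀ i, MM N π i) j) =
          e i x * ∏ j ∈ Finset.univ.erase i, e j 1 := by
        intro e
        rw [← Finset.mul_prod_erase Finset.univ _ (Finset.mem_univ i), Pi.mulSingle_eq_same]
        congr 1
        refine Finset.prod_congr rfl fun j hj => ?_
        rw [Pi.mulSingle_eq_of_ne (Finset.ne_of_mem_erase hj)]
        rfl
      rw [h2, h2, hα', hβ'] at h1
      exact h1
    have hall : ∀ x, c i x * α = c' i x * β := by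
      intro x
      by_cases hxm : x ∈ MM N π i
      · exact hx x hxm
      · rw [(FI.Lib.lS1 Γ (MM N π i) (c i) (hcF i).1).1 x hxm,
          (FI.Lib.lS1 Γ (MM N π i) (c' i) (hcF' i).1).1 x hxm]
        simp
    have hn1 := FI.Lib.lS2 Γ (MM N π i) (c i) (c i) (hcF i).1 (hcF i).1
    have hn2 := FI.Lib.lS2 Γ (MM N π i) (c' i) (c' i) (hcF' i).1 (hcF' i).1
    rw [if_pos rfl] at hn1 hn2
    have hsum : (∑ g, c i g * conj (c i g)) * ((α : ℂ) * α) =
        (∑ g, c' i g * conj (c' i g)) * ((β : ℂ) * β) := by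
      rw [Finset.sum_mul, Finset.sum_mul]
      refine Finset.sum_congr rfl fun g _ => ?_
      have h1 := hall g
      have h2 : conj (c i g) * α = conj (c' i g) * β := by
        have h3 := congrArg conj h1
        rwa [map_mul, map_mul, Complex.conj_natCast, Complex.conj_natCast] at h3
      calc c i g * conj (c i g) * ((α : ℂ) * α) = (c i g * α) * (conj (c i g) * α) := by ring
        _ = (c' i g * β) * (conj (c' i g) * β) := by rw [h1, h2]
        _ = c' i g * conj (c' i g) * ((β : ℂ) * β) := by ring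
    rw [hn1, hn2] at hsum
    have hcard : ((Nat.card (MM N π i) : ℕ) : ℂ) ≠ 0 := by
      exact_mod_cast Nat.card_pos.ne'
    have h1 : (α : ℂ) * α = β * β := mul_left_cancel₀ hcard hsum
    have h2 : α * α = β * β := by exact_mod_cast h1
    have h3 : α = β := Nat.mul_self_inj.1 h2
    funext x
    have h4 := hall x
    rw [h3] at h4
    exact mul_right_cancel₀ (by exact_mod_cast hβ.ne') h4
  · -- surjectivity
    intro χ hχ
    obtain ⟨c, hcF, hcv⟩ := hcl2 χ hχ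
    refine ⟨c, hcF, ?_⟩
    funext n
    by_cases hn : n ∈ N
    · obtain ⟨z, hz, m, rfl⟩ := hm.gen hc n hn
      rw [hval c hcF z hz m]
      exact (hcv z hz m (fun j hj => absurd (Finset.mem_univ j) hj)).symm
    · rw [(FI.Lib.lS1 Γ N (F c) (hF c hcF).1.1).1 n hn, (FI.Lib.lS1 Γ N χ hχ.1).1 n hn]

end Pool.Agent.H86.FC
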