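import Pool.Agent.H6.FC.Lem

set_option autoImplicit false

open scoped Classical ComplexConjugate commutatorElement

namespace Pool.Agent.H86.FC

open FI AMc AMt

/-- a nonabelian simple group is perfect -/
lemma mmf_perfect {S : Type} [Group S] (hS : NAS S) : commutator S = ⊤ := by
  have := hS.sim
  obtain ⟨a, b, hab⟩ := hS.nab
  rcases IsSimpleGroup.eq_bot_or_eq_top_of_normal (commutator S) inferInstance with h | h
  · exfalso
    apply hab
    have h1 : ⁅a, b⁆ ∈ commutator S :=
      Subgroup.commutator_mem_commutator (Subgroup.mem_top a) (Subgroup.mem_top b)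
    rw [h, Subgroup.mem_bot] at h1
    exact commutatorElement_eq_one_iff_mul_comm.1 h1
  · exact h

theorem pf_MMF : T_MMF := by
  intro Γ S J _ _ _ _ _ hS Z N π σ a hd
  have hzm : ∀ i, Z ≤ MM N π i := by
    intro i z hz
    refine ⟨hd.le hz, fun j _ => ?_⟩
    rw [(hd.ker ⟨z, hd.le hz⟩).2 hz]
    rfl
  have hmn : ∀ i, MM N π i ≤ N := fun i x hx => hx.1
  have hpj : ∀ (i : J) (x : Γ) (hx : x ∈ N), pj N π i x = π ⟨x, hx⟩ i := by
    intro i x hx
    rw [pj, dif_pos hx]
  have hmul : ∀ x ∈ N, ∀ y ∈ N, ∀ i, pj N π i (x * y) = pj N π i x * pj N π i y := by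
    intro x hx y hy i
    rw [hpj i x hx, hpj i y hy, hpj i _ (N.mul_mem hx hy)]
    have h : (⟨x * y, N.mul_mem hx hy⟩ : N) = ⟨x, hx⟩ * ⟨y, hy⟩ := rfl
    rw [h, map_mul, Pi.mul_apply]
  have hsur : ∀ i s, ∃ x ∈ MM N π i, pj N π i x = s := by
    intro i s
    obtain ⟨n, hn⟩ := hd.sur (Pi.mulSingle i s)
    refine ⟨n, ⟨n.2, fun j hj => ?_⟩, ?_⟩
    · change π n j = 1
      rw [hn, Pi.mulSingle_eq_of_ne hj]
    · rw [hpj i n n.2]
      change π n i = s
      rw [hn, Pi.mulSingle_eq_same]
  have hker : ∀ i, ∀ x ∈ MM N π i, pj N π i x = 1 ↔ x ∈ Z := by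
    intro i x hx
    obtain ⟨hxN, hx'⟩ := hx
    rw [hpj i x hxN]
    constructor
    · intro h
      apply (hd.ker ⟨x, hxN⟩).1
      funext j
      by_cases hj : j = i
      · rw [hj, h]
        rfl
      · exact hx' j hj
    · intro h
      rw [(hd.ker ⟨x, hxN⟩).2 h]
      rfl
  -- the homomorphism from `MM i`
  set f : ∀ i, MM N π i →* S := fun i =>
    (Pi.evalMonoidHom (fun _ : J => S) i).comp (π.comp (Subgroup.inclusion (hmn i))) with hf
  have hfa : ∀ i (x : MM N π i), f i x = pj N π i x := by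
    intro i x
    rw [hpj i x (hmn i x.2)]
    rfl
  have hfs : ∀ i, Function.Surjective (f i) := by
    intro i s
    obtain ⟨x, hx, hxs⟩ := hsur i s
    exact ⟨⟨x, hx⟩, by rw [hfa]; exact hxs⟩
  have hprf : ∀ i, MM N π i ≤ Z ⊔ ⁅MM N π i, MM N π i⁆ := by
    intro i x hx
    have h1 : (commutator (MM N π i)).map (f i) = ⊤ := by
      rw [commutator_def, Subgroup.map_commutator, ← MonoidHom.range_eq_map,
        MonoidHom.range_eq_top.2 (hfs i), ← commutator_def, mmf_perfect hS]
    have h2 : f i ⟨x, hx⟩ ∈ (commutator (MM N π i)).map (f i) := by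
      rw [h1]
      exact Subgroup.mem_top _
    obtain ⟨y, hy, hyx⟩ := h2
    have h3 : (y : Γ) ∈ ⁅MM N π i, MM N π i⁆ := by
      have h4 : (commutator (MM N π i)).map (MM N π i).subtype = ⁅MM N π i, MM N π i⁆ := by
        rw [commutator_def, Subgroup.map_commutator, ← MonoidHom.range_eq_map,
          Subgroup.range_subtype]
      rw [← h4]
      exact ⟨y, hy, rfl⟩
    have h5 : x * (y : Γ)⁻¹ ∈ Z := by
      have h6 : x * (y : Γ)⁻¹ ∈ MM N π i := (MM N π i).mul_mem hx ((MM N π i).inv_mem y.2)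
      apply (hker i _ h6).1
      have h7 := hfa i (⟨x, hx⟩ * y⁻¹)
      rw [map_mul, map_inv, hyx, mul_inv_cancel] at h7
      exact h7.symm
    have h8 : x = (x * (y : Γ)⁻¹) * y := by group
    rw [h8]
    exact Subgroup.mul_mem_sup h5 h3
  have hcnj : ∀ g i, ∀ x ∈ MM N π i, g * x * g⁻¹ ∈ MM N π (σ g i) ∧
      pj N π (σ g i) (g * x * g⁻¹) = a g i (pj N π i x) := by
    intro g i x hx
    have hxN := hmn i hx
    have hgN : g * x * g⁻¹ ∈ N := hd.nor.conj_mem x hxN g
    have hact := hd.act g ⟨x, hxN⟩ ⟨g * x * g⁻¹, hgN⟩ rfl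
    constructor
    · refine ⟨hgN, fun j hj => ?_⟩
      have h1 : σ g ((σ g).symm j) = j := (σ g).apply_symm_apply j
      have h2 : (σ g).symm j ≠ i := by
        intro h
        apply hj
        rw [← h1, h]
      rw [← h1, hact, hx.2 _ h2, map_one]
    · rw [hpj _ _ hgN, hpj _ _ hxN]
      exact hact i
  have hcen : ∀ z ∈ Z, ∀ g : Γ, z * g = g * z := hd.cen
  have hcom : Pairwise fun i j => ∀ x y : Γ, x ∈ MM N π i → y ∈ MM N π j → Commute x y := by
    intro i j hij x y hx hy
    -- conjugation moves `y` by a central element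
    have key : ∀ x ∈ MM N π i, ∃ z ∈ Z, x * y = z * (y * x) := by
      intro x hx
      refine ⟨x * y * x⁻¹ * y⁻¹, ?_, by group⟩
      have hxN := hmn i hx
      have hyN := hmn j hy
      have h1 : x * y * x⁻¹ * y⁻¹ ∈ N :=
        N.mul_mem (N.mul_mem (N.mul_mem hxN hyN) (N.inv_mem hxN)) (N.inv_mem hyN)
      apply (hd.ker ⟨_, h1⟩).1
      have h2 : (⟨x * y * x⁻¹ * y⁻¹, h1⟩ : N) =
          ⟨x, hxN⟩ * ⟨y, hyN⟩ * ⟨x, hxN⟩⁻¹ * ⟨y, hyN⟩⁻¹ := rfl
      rw [h2, map_mul, map_mul, map_mul, map_inv, map_inv]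
      funext k
      simp only [Pi.mul_apply, Pi.inv_apply, Pi.one_apply]
      by_cases hk : k = i
      · have hkj : k ≠ j := by rw [hk]; exact hij
        rw [hy.2 k hkj]
        simp
      · rw [hx.2 k hk]
        simp
    have hcent : MM N π i ≤ Subgroup.centralizer {y} := by
      refine (hprf i).trans (sup_le ?_ ?_)
      · intro z hz
        rw [Subgroup.mem_centralizer_singleton_iff]
        exact hcen z hz y
      · rw [Subgroup.commutator_le]
        intro u hu v hv
        rw [Subgroup.mem_centralizer_singleton_iff]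
        obtain ⟨c, hc, hc'⟩ := key u hu
        obtain ⟨e, he, he'⟩ := key v hv
        -- `u v y = c e y u v` and `v u y = c e y v u`
        have h1 : (u * v) * y = (c * e) * (y * (u * v)) := by
          calc (u * v) * y = u * (v * y) := by group
            _ = u * (e * (y * v)) := by rw [he']
            _ = e * (u * y * v) := by
                rw [← mul_assoc u e, ← hcen e he u]
                group
            _ = e * (c * (y * u) * v) := by rw [hc']
            _ = (e * c) * (y * (u * v)) := by group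
            _ = (c * e) * (y * (u * v)) := by rw [hcen e he c]
        have h2 : (v * u) * y = (c * e) * (y * (v * u)) := by
          calc (v * u) * y = v * (u * y) := by group
            _ = v * (c * (y * u)) := by rw [hc']
            _ = c * (v * y * u) := by
                rw [← mul_assoc v c, ← hcen c hc v]
                group
            _ = c * (e * (y * v) * u) := by rw [he']
            _ = (c * e) * (y * (v * u)) := by group
        have hce : c * e ∈ Z := Z.mul_mem hc he
        have h3 : ⁅u, v⁆ = (u * v) * (v * u)⁻¹ := by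
          rw [commutatorElement_def]
          group
        rw [h3]
        have h4 : (v * u)⁻¹ * y = (c * e)⁻¹ * (y * (v * u)⁻¹) := by
          have h5 : y * (v * u)⁻¹ = (c * e) * ((v * u)⁻¹ * y) := by
            apply mul_left_cancel (a := v * u)
            calc v * u * (y * (v * u)⁻¹) = ((v * u) * y) * (v * u)⁻¹ := by group
              _ = ((c * e) * (y * (v * u))) * (v * u)⁻¹ := by rw [h2]
              _ = (c * e) * y := by group
              _ = (c * e) * ((v * u) * ((v * u)⁻¹ * y)) := by group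
              _ = ((v * u) * (c * e)) * ((v * u)⁻¹ * y) := by
                  rw [← mul_assoc, hcen _ hce (v * u)]
              _ = v * u * (c * e * ((v * u)⁻¹ * y)) := by group
          rw [h5]
          group
        calc (u * v) * (v * u)⁻¹ * y = (u * v) * ((v * u)⁻¹ * y) := by group
          _ = (u * v) * ((c * e)⁻¹ * (y * (v * u)⁻¹)) := by rw [h4]
          _ = (c * e)⁻¹ * (((u * v) * y) * (v * u)⁻¹) := by
              rw [← mul_assoc (u * v) (c * e)⁻¹, ← hcen _ (Z.inv_mem hce) (u * v)]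
              group
          _ = (c * e)⁻¹ * (((c * e) * (y * (u * v))) * (v * u)⁻¹) := by rw [h1]
          _ = y * ((u * v) * (v * u)⁻¹) := by group
    have h9 := hcent hx
    rw [Subgroup.mem_centralizer_singleton_iff] at h9
    exact h9
  have hprj : ∀ (hc : Pairwise fun i j => ∀ x y : Γ, x ∈ MM N π i → y ∈ MM N π j →
      Commute x y), ∀ z ∈ Z, ∀ m : (∀ i, MM N π i), z * Subgroup.noncommPiCoprod hc m ∈ N ∧
      ∀ i, pj N π i (z * Subgroup.noncommPiCoprod hc m) = pj N π i (m i) := by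
    intro hc z hz m
    have hPN : ∀ m : (∀ i, MM N π i), Subgroup.noncommPiCoprod hc m ∈ N := by
      intro m
      have h1 : Subgroup.noncommPiCoprod hc m ∈ (Subgroup.noncommPiCoprod hc).range := ⟨m, rfl⟩
      rw [Subgroup.noncommPiCoprod_range] at h1
      exact (iSup_le hmn : (⨆ i, MM N π i) ≤ N) h1
    refine ⟨N.mul_mem (hd.le hz) (hPN m), fun i => ?_⟩
    rw [hmul z (hd.le hz) _ (hPN m) i, hpj i z (hd.le hz), (hd.ker ⟨z, hd.le hz⟩).2 hz,
      Pi.one_apply, one_mul]
    set φ1 : (∀ i, MM N π i) →* S := (Pi.evalMonoidHom (fun _ : J => S) i).comp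
      (π.comp ((Subgroup.noncommPiCoprod hc).codRestrict N hPN)) with hφ1
    set φ2 : (∀ i, MM N π i) →* S := (f i).comp (Pi.evalMonoidHom (fun i => MM N π i) i) with hφ2
    have h2 : φ1 = φ2 := by
      apply MonoidHom.pi_ext
      intro j x
      have h3 : φ1 (Pi.mulSingle j x) = π ⟨x, hmn j x.2⟩ i := by
        have hsub : (⟨Subgroup.noncommPiCoprod hc (Pi.mulSingle j x), hPN _⟩ : N) =
            ⟨x, hmn j x.2⟩ := Subtype.ext (Subgroup.noncommPiCoprod_mulSingle j x)
        rw [← hsub]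
        rfl
      rw [h3]
      change _ = f i ((Pi.mulSingle j x : ∀ i, MM N π i) i)
      by_cases hji : i = j
      · subst hji
        rw [Pi.mulSingle_eq_same]
        rfl
      · rw [Pi.mulSingle_eq_of_ne hji, map_one]
        exact x.2.2 i hji
    have h3 := DFunLike.congr_fun h2 m
    rw [hpj i _ (hPN m)]
    change _ = f i (m i) at h3
    rw [← hfa, ← h3]
    rfl
  have hgen : ∀ (hc : Pairwise fun i j => ∀ x y : Γ, x ∈ MM N π i → y ∈ MM N π j →
      Commute x y), ∀ n ∈ N, ∃ z ∈ Z, ∃ m : (∀ i, MM N π i),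
      n = z * Subgroup.noncommPiCoprod hc m := by
    intro hc n hn
    have h1 : ∀ i, ∃ x : MM N π i, pj N π i x = pj N π i n := by
      intro i
      obtain ⟨x, hx, hxs⟩ := hsur i (pj N π i n)
      exact ⟨⟨x, hx⟩, hxs⟩
    choose m hm using h1
    have h2 := hprj hc 1 Z.one_mem m
    rw [one_mul] at h2
    refine ⟨n * (Subgroup.noncommPiCoprod hc m)⁻¹, ?_, m, by group⟩
    have h3 : n * (Subgroup.noncommPiCoprod hc m)⁻¹ ∈ N := N.mul_mem hn (N.inv_mem h2.1)
    apply (hd.ker ⟨_, h3⟩).1
    funext i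
    have h4 : (⟨n * (Subgroup.noncommPiCoprod hc m)⁻¹, h3⟩ : N) =
        ⟨n, hn⟩ * ⟨Subgroup.noncommPiCoprod hc m, h2.1⟩⁻¹ := rfl
    rw [h4, map_mul, map_inv, Pi.mul_apply, Pi.inv_apply, Pi.one_apply, ← hpj i n hn,
      ← hpj i _ h2.1, h2.2 i, hm i, mul_inv_cancel]
  exact ⟨hzm, hmn, hmul, hsur, hker, hprf, hcnj, hcom, hgen, hprj⟩

end Pool.Agent.H86.FC
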