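import Pool.Agent.H6.FC.Lem

set_option autoImplicit false

open scoped Classical ComplexConjugate

namespace Pool.Agent.H86.FC

open FI AMc AMt

lemma te_trace {d : ℕ} (f : (Fin d → ℂ) →ₗ[ℂ] (Fin d → ℂ)) :
    LinearMap.trace ℂ _ f = (LinearMap.toMatrix' f).trace := by
  rw [LinearMap.trace_eq_matrix_trace ℂ (Pi.basisFun ℂ (Fin d)), LinearMap.toMatrix_eq_toMatrix']

/-- traces of matrix representations are characters -/
lemma isChar_of_mat {U κ : Type} [Group U] [Fintype κ] [DecidableEq κ] (R : U →* Matrix κ κ ℂ) :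
    IsChar U (fun u => (R u).trace) := by
  set e : κ ≃ Fin (Fintype.card κ) := Fintype.equivFin κ with he
  let ρ : U →* ((Fin (Fintype.card κ) → ℂ) →ₗ[ℂ] (Fin (Fintype.card κ) → ℂ)) :=
    { toFun := fun u => Matrix.toLin' ((R u).submatrix e.symm e.symm)
      map_one' := by
        rw [map_one, Matrix.submatrix_one_equiv, Matrix.toLin'_one]
        rfl
      map_mul' := by
        intro u v
        rw [map_mul, ← Matrix.submatrix_mul_equiv (R u) (R v) e.symm e.symm e.symm,
          Matrix.toLin'_mul]
        rfl }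
  refine ⟨Fintype.card κ, ρ, ?_⟩
  funext u
  change LinearMap.trace ℂ _ (Matrix.toLin' ((R u).submatrix e.symm e.symm)) = _
  rw [te_trace, LinearMap.toMatrix'_toLin']
  simp only [Matrix.trace, Matrix.diag, Matrix.submatrix_apply]
  exact Equiv.sum_comp e.symm (fun x => R u x x)

lemma te_sum_prod {E : Type} [Fintype E] {d : ℕ} (A : E → Fin d → ℂ) :
    ∑ k : E → Fin d, ∏ j, A j (k j) = ∏ j, ∑ x, A j x := by
  rw [Finset.prod_univ_sum, Fintype.piFinset_univ]

theorem pf_TE1 : T_TE1 := by
  intro U E S _ _ _ _ _ σ a hcoc χ hχ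
  obtain ⟨d, ρ, -, rfl⟩ := hχ
  -- the matrices
  set M : MulAut S → Matrix (Fin d) (Fin d) ℂ := fun α => LinearMap.toMatrix' (ρ α) with hM
  have hMmul : ∀ α β, M (α * β) = M α * M β := by
    intro α β
    rw [hM]
    simp only
    rw [map_mul, LinearMap.toMatrix'_mul]
  have hMone : M 1 = 1 := by
    rw [hM]
    simp only
    rw [map_one, LinearMap.toMatrix'_one]
  have hMtr : ∀ α, (M α).trace = ρ.character α := by
    intro α
    exact (te_trace (ρ α)).symm
  have ha1 : ∀ i, a 1 i = 1 := by
    intro i
    have h := hcoc 1 1 i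
    rw [mul_one, map_one, Equiv.Perm.one_apply] at h
    exact mul_left_cancel (a := a 1 i) (by rw [mul_one]; exact h.symm)
  let R : U →* Matrix (E → Fin d) (E → Fin d) ℂ :=
    { toFun := fun u => Matrix.of fun f' f => ∏ i, M (a u i) (f' (σ u i)) (f i)
      map_one' := by
        ext f' f
        rw [Matrix.of_apply]
        simp only [ha1, hMone, map_one, Equiv.Perm.one_apply]
        by_cases h : f' = f
        · subst h
          rw [Matrix.one_apply_eq]
          exact Finset.prod_eq_one fun i _ => Matrix.one_apply_eq _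
        · rw [Matrix.one_apply_ne h]
          obtain ⟨i, hi⟩ := Function.ne_iff.1 h
          exact Finset.prod_eq_zero (Finset.mem_univ i) (Matrix.one_apply_ne hi)
      map_mul' := by
        intro g h
        ext f'' f
        rw [Matrix.mul_apply, Matrix.of_apply]
        simp only [Matrix.of_apply]
        have h1 : ∀ f' : E → Fin d, (∏ i, M (a g i) (f'' (σ g i)) (f' i)) *
            ∏ i, M (a h i) (f' (σ h i)) (f i) =
            ∏ j, (M (a g (σ h j)) (f'' (σ g (σ h j))) ((f' ∘ (σ h)) j) *
              M (a h j) ((f' ∘ (σ h)) j) (f j)) := by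
          intro f'
          rw [Finset.prod_mul_distrib]
          congr 1
          exact (Equiv.prod_comp (σ h) (fun i => M (a g i) (f'' (σ g i)) (f' i))).symm
        rw [Finset.sum_congr rfl (fun f' _ => h1 f')]
        have h2 := Equiv.sum_comp ((σ h).symm.arrowCongr (Equiv.refl (Fin d)))
          (fun k : E → Fin d => ∏ j, (M (a g (σ h j)) (f'' (σ g (σ h j))) (k j) *
              M (a h j) (k j) (f j)))
        refine Eq.trans ?_ h2.symm
        rw [te_sum_prod (fun j x => M (a g (σ h j)) (f'' (σ g (σ h j))) x * M (a h j) x (f j))]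
        refine Finset.prod_congr rfl fun j _ => ?_
        rw [hcoc, hMmul, Matrix.mul_apply, map_mul, Equiv.Perm.mul_apply] }
  refine ⟨fun u => (R u).trace, isChar_of_mat R, ?_⟩
  intro u hu
  change ∑ f : E → Fin d, ∏ i, M (a u i) (f (σ u i)) (f i) = _
  simp only [hu, Equiv.Perm.one_apply]
  rw [te_sum_prod (fun i x => M (a u i) x x)]
  refine Finset.prod_congr rfl fun i _ => ?_
  rw [← hMtr]
  rfl

end Pool.Agent.H86.FC
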