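import Pool.Agent.H95.FC.Targets

/-!
Row AHBD: the number of the characters of a given conductor and weight.
-/

set_option autoImplicit false

open MeasureTheory Set Filter NumberField

namespace Pool.Agent.H86.FC

open Pool.Agent.H31.CN Pool.Agent.H89.FM Pool.Agent.H61.FM Pool.Agent.H89.FC Pool.Agent.H95.FC
open scoped Real nonZeroDivisors Matrix MatrixGroups

theorem pf_HBDc (hGCB : Pool.Agent.H95.FC.T_GCB) (hCHX : Pool.Agent.H95.FC.T_CHX)
    (hRGE : Pool.Agent.H37.CF.T_RGE) : T_HBDc := by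
  intro ε hε
  obtain ⟨C, hC, hG⟩ := hGCB ε hε
  refine ⟨C, hC, fun K _ _ σ D f m Ψ hK hΨ => ?_⟩
  rcases Ψ.eq_empty_or_nonempty with h0 | ⟨ψ₀, hψ₀⟩
  · subst h0
    simp only [Finset.card_empty, Nat.cast_zero]
    positivity
  · have hf : 1 ≤ f := (hΨ ψ₀ hψ₀).pos
    obtain ⟨G, iG, fG, cl, hcl⟩ := hRGE K f hf
    refine le_trans ?_ (hG K D f G cl hK hf hcl)
    have hx : ∀ ψ : Ψ, ∃ φ : G →* ℂˣ, ∀ I, Pool.Agent.H95.CF.Pr K f I →
        (ψ : Ideal (𝓞 K) → ℂ) I = ψ₀ I * ((φ (cl I) : ℂˣ) : ℂ) := fun ψ =>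
      hCHX K σ f m ψ₀ ψ G cl hcl (hΨ ψ₀ hψ₀) (hΨ ψ ψ.2)
    choose φ hφ using hx
    have hinj : Function.Injective φ := by
      intro ψ ψ' h
      apply Subtype.ext
      funext I
      by_cases hI : Pool.Agent.H95.CF.Pr K f I
      · rw [hφ ψ I hI, hφ ψ' I hI, h]
      · rw [(hΨ ψ ψ.2).van I hI, (hΨ ψ' ψ'.2).van I hI]
    have hcard : Nat.card (G →* ℂˣ) = Nat.card G :=
      CommGroup.card_monoidHom_of_hasEnoughRootsOfUnity G ℂ
    have hpos : 0 < Nat.card G := Nat.card_pos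
    have hfin : Finite (G →* ℂˣ) := by
      apply Nat.finite_of_card_ne_zero
      omega
    have h1 : Nat.card Ψ ≤ Nat.card (G →* ℂˣ) := Nat.card_le_card_of_injective φ hinj
    have h2 : Nat.card Ψ = Ψ.card := by
      rw [Nat.card_eq_fintype_card, Fintype.card_coe]
    rw [h2, hcard] at h1
    exact_mod_cast h1

end Pool.Agent.H86.FC
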