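import Pool.Agent.H6.FC.Lem

set_option autoImplicit false

open scoped Classical ComplexConjugate

namespace Pool.Agent.H86.FC

open FI AMc AMt

/-- elements of `N` act by inner automorphisms -/
lemma ten_inner {Γ S J : Type} [Group Γ] [Group S] [Fintype J] (hS : NAS S)
    {Z N : Subgroup Γ} {π : N →* (J → S)} {σ : Γ →* Equiv.Perm J} {a : Γ → J → MulAut S}
    (hd : CPd Z N π σ a) (n : N) : σ n = 1 ∧ ∀ i, a n i = MulAut.conj (π n i) := by
  have hact : ∀ (m : N) (i : J), π n (σ n i) * π m (σ n i) * (π n (σ n i))⁻¹ = a n i (π m i) := by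
    intro m i
    have h1 := hd.act n m (n * m * n⁻¹) (by simp) i
    rw [map_mul, map_mul, map_inv] at h1
    simpa using h1
  have hσ : σ n = 1 := by
    apply Equiv.ext
    intro i
    rw [Equiv.Perm.one_apply]
    by_contra hne
    obtain ⟨x, y, hxy⟩ := hS.nab
    obtain ⟨s, hs⟩ : ∃ s : S, s ≠ 1 := by
      by_cases hx : x = 1
      · exact ⟨y, fun hy => hxy (by rw [hx, hy])⟩
      · exact ⟨x, hx⟩
    obtain ⟨m, hm⟩ := hd.sur (Pi.mulSingle (σ n i) s)
    have h1 := hact m i
    rw [hm, Pi.mulSingle_eq_same, Pi.mulSingle_eq_of_ne (Ne.symm hne), map_one] at h1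
    apply hs
    have h2 : s = (π n (σ n i))⁻¹ * (π n (σ n i) * s * (π n (σ n i))⁻¹) * π n (σ n i) := by group
    rw [h2, h1]
    group
  refine ⟨hσ, fun i => ?_⟩
  ext x
  obtain ⟨m, hm⟩ := hd.sur (Pi.mulSingle i x)
  have h1 := hact m i
  rw [hσ, Equiv.Perm.one_apply, hm, Pi.mulSingle_eq_same] at h1
  rw [MulAut.conj_apply]
  exact h1.symm

theorem pf_TEN (TE1 : T_TE1) : T_TEN := by
  intro Γ S J _ _ _ _ _ hS Z N π σ a hd U hNU ε hε hinv
  -- extensions
  have hex : ∀ e : S → ℂ, ∃ χ : MulAut S → ℂ, e ∈ Ext S →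
      χ ∈ Irr (MulAut S) ∧ ∀ s, χ (MulAut.conj s) = e s := by
    intro e
    by_cases he : e ∈ Ext S
    · obtain ⟨χ, h1, h2⟩ := he.2
      exact ⟨χ, fun _ => ⟨h1, h2⟩⟩
    · exact ⟨0, fun h => absurd h he⟩
  choose X hX using hex
  -- the character for one value
  have hτ : ∀ e : S → ℂ, ∃ τ : U → ℂ, e ∈ Ext S → IsChar U τ ∧
      ∀ u : U, σ u = 1 → τ u = ∏ i ∈ Finset.univ.filter (fun i => ε i = e), X e (a u i) := by
    intro e
    by_cases he : e ∈ Ext S
    · obtain ⟨hX1, hX2⟩ := hX e he
      have hp : ∀ (u : U) (i : J), ε i = e ↔ ε (σ u i) = e := by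
        intro u i
        rw [hinv u u.2 i]
      let σe : U →* Equiv.Perm {i : J // ε i = e} :=
        { toFun := fun u => (σ u).subtypePerm (fun i => (hp u i).symm)
          map_one' := by
            apply Equiv.ext
            intro i
            apply Subtype.ext
            simp
          map_mul' := by
            intro u v
            apply Equiv.ext
            intro i
            apply Subtype.ext
            simp }
      obtain ⟨τ, h1, h2⟩ := TE1 U {i : J // ε i = e} S σe (fun u i => a u i) (by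
        intro g h i
        exact hd.coc g h i) (X e) hX1
      refine ⟨τ, fun _ => ⟨h1, fun u hu => ?_⟩⟩
      have h3 : σe u = 1 := by
        apply Equiv.ext
        intro i
        apply Subtype.ext
        change σ u i = i
        rw [hu]
        rfl
      rw [h2 u h3]
      exact (Finset.prod_subtype (Finset.univ.filter (fun i => ε i = e)) (by simp)
        (fun i => X e (a u i))).symm
    · exact ⟨0, fun h => absurd h he⟩
  choose T hT using hτ
  -- the product over the values
  set V : Finset (S → ℂ) := Finset.univ.image ε with hV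
  have hVE : ∀ e ∈ V, e ∈ Ext S := by
    intro e he
    obtain ⟨i, -, rfl⟩ := Finset.mem_image.1 he
    exact hε i
  have hprod : ∀ W : Finset (S → ℂ), (∀ e ∈ W, e ∈ Ext S) →
      IsChar U (fun u => ∏ e ∈ W, T e u) := by
    intro W
    induction W using Finset.induction_on with
    | empty =>
      intro _
      have h := FI.Lib.lA4.2.2 U (1 : U →* ℂˣ)
      simpa using h
    | insert e W heW ih =>
      intro hW
      have h1 := ih (fun e' he' => hW e' (Finset.mem_insert_of_mem he'))
      have h2 := (hT e (hW e (Finset.mem_insert_self e W))).1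
      have h3 := FI.Lib.lA4.1 U _ _ h2 h1
      have h4 : (fun u => ∏ e ∈ insert e W, T e u) = fun u => T e u * ∏ e ∈ W, T e u := by
        funext u
        rw [Finset.prod_insert heW]
      rw [h4]
      exact h3
  refine ⟨ext0 U (fun u => ∏ e ∈ V, T e u), ?_, ?_⟩
  · have h1 : (fun u : U => ext0 U (fun u => ∏ e ∈ V, T e u) u) = fun u => ∏ e ∈ V, T e u := by
      funext u
      rw [ext0, dif_pos u.2]
    rw [h1]
    exact hprod V hVE
  · intro n
    obtain ⟨hn1, hn2⟩ := ten_inner hS hd n
    rw [ext0, dif_pos (hNU n.2)]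
    have h1 : ∀ e ∈ V, T e ⟨n, hNU n.2⟩ =
        ∏ i ∈ Finset.univ.filter (fun i => ε i = e), ε i (π n i) := by
      intro e he
      rw [(hT e (hVE e he)).2 ⟨n, hNU n.2⟩ hn1]
      refine Finset.prod_congr rfl fun i hi => ?_
      rw [Finset.mem_filter] at hi
      change X e (a n i) = _
      rw [hn2 i, (hX e (hVE e he)).2, hi.2]
    rw [Finset.prod_congr rfl h1]
    exact Finset.prod_fiberwise_of_maps_to (fun i _ => Finset.mem_image_of_mem _ (Finset.mem_univ i))
      (fun i => ε i (π n i))

end Pool.Agent.H86.FC
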